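import Pool.Agent.Helper74.RG.DefsG

/-!
# Coregularity of the locally constant functions (discrete antiderivative)
-/

set_option autoImplicit false

namespace Pool.Agent.Helper57.RG

open Pool.Agent.Helper74.RG Module

section G

variable {p s : ℕ} [Fact p.Prime] {G : Type} [Group G] (D : Dat p s G)

theorem Dat.phi_one : D.φ 1 = 0 := by
  have h := D.mul 1 1
  rw [mul_one] at h
  exact left_eq_add.mp h

theorem Dat.phi_inv (σ : D.V) : D.φ σ⁻¹ = - D.φ σ := by
  have h := D.mul σ⁻¹ σ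
  rw [inv_mul_cancel, Dat.phi_one] at h
  exact eq_neg_of_add_eq_zero_left h.symm

theorem Dat.phi_pow (σ : D.V) (m : ℕ) : D.φ (σ ^ m) = m • D.φ σ := by
  induction m with
  | zero => rw [pow_zero, Dat.phi_one, zero_smul]
  | succ m ih => rw [pow_succ, D.mul, ih, succ_nsmul]

theorem Dat.mono {a b : ℕ} (hab : a ≤ b) : D.A b ≤ D.A a := by
  intro g hg
  rw [D.mem_A] at hg ⊢
  obtain ⟨h, h1⟩ := hg
  exact ⟨h, fun i => (pow_dvd_pow _ hab).trans (h1 i)⟩

/-- commutators of elements of `V` lie in every `A j`. -/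
theorem Dat.comm_mem (σ τ : D.V) (j : ℕ) :
    (σ : G)⁻¹ * (τ : G)⁻¹ * (σ : G) * (τ : G) ∈ D.A j := by
  rw [D.mem_A]
  refine ⟨(σ⁻¹ * τ⁻¹ * σ * τ).2, fun i => ?_⟩
  have h1 : (⟨(σ : G)⁻¹ * (τ : G)⁻¹ * (σ : G) * (τ : G), (σ⁻¹ * τ⁻¹ * σ * τ).2⟩ : D.V) =
      σ⁻¹ * τ⁻¹ * σ * τ := rfl
  rw [h1, D.mul, D.mul, D.mul, Dat.phi_inv, Dat.phi_inv]
  have : (-D.φ σ + -D.φ τ + D.φ σ + D.φ τ) = 0 := by abel
  rw [this]
  exact dvd_zero _

theorem Dat.t_pow_mem (i : Fin s) (j : ℕ) : (D.t i : G) ^ (p ^ j) ∈ D.A j := by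
  rw [D.mem_A]
  refine ⟨(D.t i ^ (p ^ j)).2, fun l => ?_⟩
  have h1 : (⟨(D.t i : G) ^ (p ^ j), (D.t i ^ (p ^ j)).2⟩ : D.V) = D.t i ^ (p ^ j) := rfl
  rw [h1, Dat.phi_pow, D.ht, Pi.smul_apply, nsmul_eq_mul, Nat.cast_pow]
  exact Dvd.intro _ rfl

theorem T_eq_zero {n : ℕ} {l : Fin s} {f : Cof D n} :
    D.T (Cof.ρ D n) l f = 0 ↔ ∀ x, f.1 (x * (D.t l : G)) = f.1 x := by
  constructor
  · intro h x
    have h1 : (D.T (Cof.ρ D n) l f).1 x = 0 := by rw [h]; rfl
    have h2 : f.1 (x * (D.t l : G)) - f.1 x = 0 := h1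
    exact sub_eq_zero.mp h2
  · intro h
    apply Subtype.ext
    funext x
    change f.1 (x * (D.t l : G)) - f.1 x = 0
    rw [h x, sub_self]

/-- the representative of a coset. -/
noncomputable def rp (x : G) : G := (QuotientGroup.mk x : G ⧸ D.V).out

theorem rp_mem (x : G) : (rp D x)⁻¹ * x ∈ D.V := by
  unfold rp
  rw [← QuotientGroup.eq]
  exact Quotient.out_eq' _

theorem rp_mul (x : G) {v : G} (hv : v ∈ D.V) : rp D (x * v) = rp D x := by
  unfold rp
  congr 1
  rw [eq_comm, QuotientGroup.eq, inv_mul_cancel_left]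
  exact hv

/-- the `i`-th coordinate modulo `p ^ (j + 1)`. -/
noncomputable def co (i : Fin s) (j : ℕ) (x : G) : ZMod (p ^ (j + 1)) :=
  PadicInt.toZModPow (j + 1) (D.φ ⟨(rp D x)⁻¹ * x, rp_mem D x⟩ i)

theorem co_mul (i : Fin s) (j : ℕ) (x : G) (v : D.V) :
    co D i j (x * v) = co D i j x + PadicInt.toZModPow (j + 1) (D.φ v i) := by
  unfold co
  rw [← map_add]
  congr 1
  rw [← Pi.add_apply, ← D.mul]
  congr 2
  change (rp D (x * v))⁻¹ * (x * v) = (rp D x)⁻¹ * x * v
  rw [rp_mul D x v.2, mul_assoc]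

theorem sum_period {n : ℕ} (u : ℕ → (Fin n → ZMod p)) (q : ℕ) (hu : ∀ m, u (m + q) = u m) :
    ∑ m ∈ Finset.range (q * p), u m = 0 := by
  have h1 : ∀ c : ℕ, ∀ m, u (m + q * c) = u m := by
    intro c
    induction c with
    | zero => intro m; rw [mul_zero, add_zero]
    | succ c ih => intro m; rw [mul_add, mul_one, ← add_assoc, hu, ih]
  have h2 : ∀ c : ℕ, ∑ m ∈ Finset.range (q * c), u m = c • ∑ m ∈ Finset.range q, u m := by
    intro c
    induction c with
    | zero => simp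
    | succ c ih =>
      rw [mul_add, mul_one, Finset.sum_range_add, ih, succ_nsmul]
      congr 1
      apply Finset.sum_congr rfl
      intro m _
      rw [add_comm, h1]
  rw [h2]
  funext l
  rw [Pi.smul_apply, nsmul_eq_mul, CharP.cast_eq_zero, zero_mul]
  rfl

/-- the discrete antiderivative. -/
noncomputable def anti {n : ℕ} (i : Fin s) (j : ℕ) (f : G → (Fin n → ZMod p)) (x : G) :
    Fin n → ZMod p :=
  ∑ m ∈ Finset.range (co D i j x).val,
    f (x * (((D.t i : G) ^ (co D i j x).val)⁻¹ * (D.t i : G) ^ m))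

/-- G3 -/
theorem Cof.coreg (n : ℕ) : Coreg (D.T (Cof.ρ D n)) s := by
  intro i _ f hf
  obtain ⟨j, hj⟩ := f.2
  have hinv : ∀ (x y a : G), a ∈ D.A j → f.1 (x * a * y) = f.1 (x * y) := by
    intro x y a ha
    have h1 : x * a * y = x * y * (y⁻¹ * a * y) := by group
    have h2 : y⁻¹ * a * y ∈ D.A j := by
      have := (D.normal j).conj_mem a ha y⁻¹
      rwa [inv_inv] at this
    rw [h1, hj _ _ h2]
  have hcoA : ∀ (x a : G), a ∈ D.A (j + 1) → co D i j (x * a) = co D i j x := by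
    intro x a ha
    rw [D.mem_A] at ha
    obtain ⟨haV, ha⟩ := ha
    have h1 := co_mul D i j x ⟨a, haV⟩
    rw [h1]
    have h2 : PadicInt.toZModPow (j + 1) (D.φ ⟨a, haV⟩ i) = 0 := by
      rw [← RingHom.mem_ker, PadicInt.ker_toZModPow, Ideal.mem_span_singleton]
      exact ha i
    rw [h2, add_zero]
  have hlev : anti D i j f.1 ∈ Cof D n := by
    refine ⟨j + 1, fun x a ha => ?_⟩
    unfold anti
    rw [hcoA x a ha]
    apply Finset.sum_congr rfl
    intro m _
    exact hinv _ _ _ (Dat.mono D (Nat.le_succ j) ha)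
  refine ⟨⟨anti D i j f.1, hlev⟩, ?_, ?_⟩
  · intro l hl
    rw [T_eq_zero]
    intro x
    have hfl := (T_eq_zero D).mp (hf l hl)
    have h1 : co D i j (x * (D.t l : G)) = co D i j x := by
      rw [co_mul, D.ht, Pi.single_eq_of_ne (ne_of_gt hl), map_zero, add_zero]
    change anti D i j f.1 (x * (D.t l : G)) = anti D i j f.1 x
    unfold anti
    rw [h1]
    apply Finset.sum_congr rfl
    intro m _
    set y : D.V := (D.t i ^ (co D i j x).val)⁻¹ * D.t i ^ m with hy
    have hyc : ((D.t i : G) ^ (co D i j x).val)⁻¹ * (D.t i : G) ^ m = (y : G) := rfl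
    rw [hyc]
    have h2 : x * (D.t l : G) * (y : G) =
        x * (y : G) * (D.t l : G) * ((D.t l : G)⁻¹ * (y : G)⁻¹ * (D.t l : G) * (y : G)) := by group
    rw [h2, hj _ _ (Dat.comm_mem D (D.t l) y j), hfl]
  · apply Subtype.ext
    funext x
    change anti D i j f.1 (x * (D.t i : G)) - anti D i j f.1 x = f.1 x
    rw [sub_eq_iff_eq_add]
    have hp1 : 1 < p ^ (j + 1) := Nat.one_lt_pow (Nat.succ_ne_zero j) (Fact.out : p.Prime).one_lt
    have : Fact (1 < p ^ (j + 1)) := ⟨hp1⟩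
    have : NeZero (p ^ (j + 1)) := ⟨by omega⟩
    have h1 : co D i j (x * (D.t i : G)) = co D i j x + 1 := by
      rw [co_mul, D.ht, Pi.single_eq_same, map_one]
    have h2 : (co D i j x + 1).val = ((co D i j x).val + 1) % (p ^ (j + 1)) := by
      rw [ZMod.val_add, ZMod.val_one]
    have hlt := ZMod.val_lt (co D i j x)
    unfold anti
    rw [h1, h2]
    set N := (co D i j x).val with hN
    rcases lt_or_eq_of_le (Nat.succ_le_of_lt hlt) with h3 | h3
    · rw [Nat.mod_eq_of_lt h3, Finset.sum_range_succ, add_comm]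
      congr 1
      · rw [pow_succ']
        group
      · apply Finset.sum_congr rfl
        intro m _
        rw [pow_succ']
        group
    · have h3' : N + 1 = p ^ (j + 1) := h3
      rw [h3', Nat.mod_self, Finset.sum_range_zero]
      have h4 : f.1 x = f.1 (x * (((D.t i : G) ^ N)⁻¹ * (D.t i : G) ^ N)) := by
        rw [inv_mul_cancel, mul_one]
      rw [h4, add_comm, ← Finset.sum_range_succ (fun m => f.1 (x * (((D.t i : G) ^ N)⁻¹ * (D.t i : G) ^ m))),
        h3', pow_succ]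
      symm
      apply sum_period
      intro m
      rw [pow_add, ← mul_assoc, ← mul_assoc]
      rw [hj _ _ (Dat.t_pow_mem D i j), mul_assoc]

end G

end Pool.Agent.Helper57.RG
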