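import Pool.Agent.Helper74.RG.DefsG

/-!
# The snake lemma for coregularity
-/

set_option autoImplicit false

namespace Pool.Agent.Helper57.RG

open Pool.Agent.Helper74.RG Module

section A

variable {s : ℕ} {k : Type} [Field k] {H : Type} [AddCommGroup H] [Module k H]
  {T : Fin s → Module.End k H}

/-- G4: the snake lemma for coregularity. -/
theorem coreg_snake {C H' : Type} [AddCommGroup C] [Module k C] [AddCommGroup H'] [Module k H']
    {TC : Fin s → Module.End k C} {T' : Fin s → Module.End k H'}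
    (hTC : LN TC) (f : H →ₗ[k] C) (g : C →ₗ[k] H')
    (hf : Function.Injective f) (hg : Function.Surjective g)
    (hfg : LinearMap.range f = LinearMap.ker g)
    (ef : ∀ i h, f (T i h) = TC i (f h)) (eg : ∀ i h, g (TC i h) = T' i (g h))
    {j : ℕ} (hH : Coreg T j) (hC : Coreg TC s) : Coreg T' (j + 1) := by
  have hgf : ∀ h, g (f h) = 0 := fun h => by
    have h1 : f h ∈ LinearMap.range f := ⟨h, rfl⟩
    rw [hfg] at h1
    exact h1
  intro i hi h' hh'
  have claim : ∀ m : ℕ, m ≤ (i : ℕ) → ∃ c, g c = h' ∧ ∀ l : Fin s, (l : ℕ) < m → TC l c = 0 := by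
    intro m
    induction m with
    | zero =>
      intro _
      obtain ⟨c, hc⟩ := hg h'
      exact ⟨c, hc, fun l hl => absurd hl (Nat.not_lt_zero _)⟩
    | succ m ih =>
      intro hm
      obtain ⟨c, hc, hcl⟩ := ih (by omega)
      have hms : m < s := lt_of_lt_of_le (by omega) (i.isLt.le)
      let i0 : Fin s := ⟨m, hms⟩
      have h1 : g (TC i0 c) = 0 := by
        rw [eg, hc]
        exact hh' i0 (by rw [Fin.lt_def]; exact hm)
      have h2 : TC i0 c ∈ LinearMap.range f := by
        rw [hfg]; exact h1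
      obtain ⟨h, hh⟩ := h2
      obtain ⟨h1', h3, h4⟩ := hH i0 (show m < j by omega) h (by
        intro l hl
        apply hf
        rw [ef, hh, hTC.comm, hcl l hl, map_zero, map_zero])
      refine ⟨c - f h1', by rw [map_sub, hgf, sub_zero, hc], ?_⟩
      intro l hl
      rcases Nat.lt_succ_iff_lt_or_eq.mp hl with hl | hl
      · rw [map_sub, hcl l hl, ← ef, h3 l hl, map_zero, sub_zero]
      · have : l = i0 := Fin.ext hl
        rw [this, map_sub, ← ef, h4, hh, sub_self]
  obtain ⟨c, hc, hcl⟩ := claim i le_rfl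
  obtain ⟨c1, h1, h2⟩ := hC i i.isLt c (fun l hl => hcl l hl)
  refine ⟨g c1, fun l hl => ?_, ?_⟩
  · rw [← eg, h1 l hl, map_zero]
  · rw [← eg, h2, hc]

end A

end Pool.Agent.Helper57.RG
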